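import Pool.Agent.Helper64.BEC.Main

/-!
Main theorem: colourings with prescribed class sizes, and the packing statement.
-/

set_option autoImplicit false

open Classical Finset

namespace Pool.Agent.Helper64.BEC

noncomputable section

variable {V ι : Type*}

theorem exists_sizes [Nonempty ι] (s : ι → ℕ) (J : Finset ι) : ∀ (X : Finset V),
    ∑ i ∈ J, s i = X.card →
    ∃ f : V → ι, (∀ v ∈ X, f v ∈ J) ∧ ∀ i ∈ J, (cl X f i).card = s i := by
  induction J using Finset.induction_on with
  | empty =>
    intro X hX
    rw [sum_empty] at hX
    have hX2 : X = ∅ := card_eq_zero.mp hX.symm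
    subst hX2
    exact ⟨fun _ => Classical.arbitrary ι, by simp, by simp⟩
  | insert i J hi ih =>
    intro X hX
    rw [sum_insert hi] at hX
    obtain ⟨T, hTX, hT⟩ := exists_subset_card_eq (s := X) (n := s i) (by omega)
    have h1 : ∑ i ∈ J, s i = (X \ T).card := by
      rw [card_sdiff_of_subset hTX]
      omega
    obtain ⟨f, hf1, hf2⟩ := ih (X \ T) h1
    refine ⟨fun v => if v ∈ T then i else f v, ?_, ?_⟩
    · intro v hv
      by_cases hvT : v ∈ T
      · simp [hvT]
      · simp only [hvT, if_false]
        exact mem_insert_of_mem (hf1 v (mem_sdiff.mpr ⟨hv, hvT⟩))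
    · intro j hj
      rw [mem_insert] at hj
      by_cases hji : j = i
      · subst hji
        rw [← hT]
        congr 1
        ext v
        rw [mem_cl]
        by_cases hvT : v ∈ T
        · simp [hvT, hTX hvT]
        · simp only [hvT, if_false, iff_false]
          rintro ⟨hv, hfv⟩
          exact hi (hfv ▸ hf1 v (mem_sdiff.mpr ⟨hv, hvT⟩))
      · have hjJ := hj.resolve_left hji
        rw [← hf2 j hjJ]
        congr 1
        ext v
        rw [mem_cl, mem_cl, mem_sdiff]
        by_cases hvT : v ∈ T
        · simp [hvT, Ne.symm hji]
        · simp [hvT]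

/-- The graph with the edges inside `Z` only. -/
def restr (G : SimpleGraph V) (Z : Finset V) : SimpleGraph V where
  Adj a b := G.Adj a b ∧ a ∈ Z ∧ b ∈ Z
  symm := ⟨fun _ _ h => ⟨h.1.symm, h.2.2, h.2.1⟩⟩
  loopless := ⟨fun _ h => G.irrefl h.1⟩

theorem exact_exists [Nonempty ι] (s : ι → ℕ) (c : ℕ) : ∀ (n : ℕ) (G : SimpleGraph V)
    (X : Finset V) (J : Finset ι) (r : ℕ), X.card = n → (∀ v ∈ X, (nbs G X v).card ≤ r) →
    ∑ i ∈ J, s i = X.card → (∀ i ∈ J, s i ≤ c) → (r + 1) * c ≤ X.card + 1 →
    ∃ f, Exact G X J s f := by
  intro n
  induction n using Nat.strong_induction_on with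
  | _ n IH =>
    intro G X J r hn hdeg hsum hc hbig
    have key : ∀ Z : Finset V, Z ⊆ X → ∃ f, Exact (restr G Z) X J s f := by
      intro Z
      induction Z using Finset.induction_on with
      | empty =>
        intro _
        obtain ⟨f, hf1, hf2⟩ := exists_sizes s J X hsum
        refine ⟨f, hf1, ?_, hf2⟩
        intro v _ w _ hadj
        exact absurd hadj.2.1 (notMem_empty _)
      | insert u Z hu ihZ =>
        intro hZX
        obtain ⟨f, hf⟩ := ihZ (fun v hv => hZX (mem_insert_of_mem hv))
        have huX : u ∈ X := hZX (mem_insert_self u Z)
        by_cases hP : Proper (restr G (insert u Z)) X f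
        · exact ⟨f, hf.maps, hP, hf.card⟩
        · have hc2 : 2 ≤ c := by
            by_contra hlt
            apply hP
            intro v hv w hw hadj hfvw
            have h1 : (cl X f (f v)).card ≤ 1 := by
              rw [hf.card _ (hf.maps v hv)]
              have := hc _ (hf.maps v hv)
              omega
            have h2 := card_le_one.mp h1 v (mem_cl.mpr ⟨hv, rfl⟩) w (mem_cl.mpr ⟨hw, hfvw.symm⟩)
            exact hadj.ne h2
          have hdeg' : ∀ v ∈ X, (nbs (restr G (insert u Z)) X v).card ≤ r := by
            intro v hv
            refine le_trans (card_le_card ?_) (hdeg v hv)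
            intro w hw
            rw [mem_nbs] at hw ⊢
            exact ⟨hw.1, hw.2.1⟩
          have hJ : r + 1 ≤ J.card := by
            by_contra hlt
            push Not at hlt
            have h1 : ∑ i ∈ J, s i ≤ ∑ i ∈ J, c := sum_le_sum hc
            rw [sum_const, smul_eq_mul, hsum] at h1
            have h4 : J.card * c ≤ r * c := Nat.mul_le_mul_right c (by omega)
            have h5 : (r + 1) * c = r * c + c := by ring
            omega
          obtain ⟨j, hj, hfree⟩ : ∃ j ∈ J, Free (restr G (insert u Z)) X f u j := by
            by_contra hcon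
            push Not at hcon
            have h1 : J ⊆ (nbs (restr G (insert u Z)) X u).image f := by
              intro j hj
              have h2 := hcon j hj
              unfold Free at h2
              push Not at h2
              obtain ⟨w, hw, hwj, hadj⟩ := h2
              rw [mem_image]
              exact ⟨w, mem_nbs.mpr ⟨hw, hadj⟩, hwj⟩
            have h2 := (card_le_card h1).trans card_image_le
            have h3 := hdeg' u huX
            omega
          have hmid : ∀ v ∈ X, ∀ w ∈ X, v ≠ u → w ≠ u → (restr G (insert u Z)).Adj v w →
              f v ≠ f w := by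
            intro v hv w hw hvu hwu hadj
            refine hf.proper v hv w hw ⟨hadj.1, ?_, ?_⟩
            · exact (mem_insert.mp hadj.2.1).resolve_left hvu
            · exact (mem_insert.mp hadj.2.2).resolve_left hwu
          have hfu : f u ≠ j := by
            intro hfu
            apply hP
            intro v hv w hw hadj
            by_cases hvu : v = u
            · subst hvu
              intro h1
              exact hfree w hw (h1.symm.trans hfu) hadj
            · by_cases hwu : w = u
              · subst hwu
                intro h1
                exact hfree v hv (h1.trans hfu) hadj.symm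
              · exact hmid v hv w hw hvu hwu hadj
          have hnear : Near (restr G (insert u Z)) X J s (Function.update f u j) (f u) j := by
            refine ⟨?_, ?_, hf.maps u huX, hj, hfu, ?_⟩
            · intro v hv
              by_cases hvu : v = u
              · subst hvu; rw [Function.update_self]; exact hj
              · rw [Function.update_of_ne hvu]; exact hf.maps v hv
            · intro v hv w hw hadj
              by_cases hvu : v = u
              · subst hvu
                rw [Function.update_self, Function.update_of_ne hadj.ne']
                intro h1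
                exact hfree w hw h1.symm hadj
              · by_cases hwu : w = u
                · subst hwu
                  rw [Function.update_self, Function.update_of_ne hvu]
                  intro h1
                  exact hfree v hv h1 hadj.symm
                · rw [Function.update_of_ne hvu, Function.update_of_ne hwu]
                  exact hmid v hv w hw hvu hwu hadj
            · intro i hi
              have h1 := card_update X f u huX (f u) j rfl hfu i
              rw [h1, hf.card i hi]
          refine near_to_exact _ X J s r c hdeg' hsum hc hbig ?_ (f u) J.card _ j hnear (by omega)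
          intro X' J' r' hlt h1 h2 h3 h4
          exact IH X'.card (hn ▸ hlt) _ X' J' r' rfl h1 h2 h3 h4
    obtain ⟨f, hf⟩ := key X (Subset.refl X)
    refine ⟨f, hf.maps, ?_, hf.card⟩
    intro v hv w hw hadj
    exact hf.proper v hv w hw ⟨hadj, hv, hw⟩

theorem packing [Fintype V] (G₁ G₂ : SimpleGraph V) (r c : ℕ)
    (hr : ∀ v, (nbs G₁ univ v).card ≤ r)
    (hc : ∀ v, {w | G₂.Reachable v w}.ncard ≤ c)
    (h : (r + 1) * c ≤ Fintype.card V + 1) :
    ∃ σ : Equiv.Perm V, ∀ u v, G₁.Adj u v → ¬ G₂.Adj (σ u) (σ v) := by
  rcases isEmpty_or_nonempty V with hV | hV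
  · exact ⟨Equiv.refl V, fun u => (hV.false u).elim⟩
  have : Nonempty G₂.ConnectedComponent := ⟨G₂.connectedComponentMk hV.some⟩
  let mk : V → G₂.ConnectedComponent := G₂.connectedComponentMk
  let J : Finset G₂.ConnectedComponent := univ.image mk
  let s : G₂.ConnectedComponent → ℕ := fun i => (cl univ mk i).card
  have hJ : ∀ v, mk v ∈ J := fun v => mem_image_of_mem _ (mem_univ v)
  obtain ⟨f, hf⟩ := exact_exists (V := V) s c (univ : Finset V).card G₁ univ J r rfl
    (fun v _ => hr v) (by
      rw [card_eq_sum_card_fiberwise (f := mk) (t := J) (fun v _ => hJ v)]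
      rfl) (by
      intro i hi
      rw [mem_image] at hi
      obtain ⟨v, _, rfl⟩ := hi
      refine le_trans (le_of_eq ?_) (hc v)
      change (cl univ mk (mk v)).card = _
      rw [← Set.ncard_coe_finset]
      congr 1
      ext w
      rw [mem_coe, mem_cl, Set.mem_ofPred_eq]
      constructor
      · rintro ⟨_, h2⟩
        exact (SimpleGraph.ConnectedComponent.exact h2).symm
      · intro h2
        exact ⟨mem_univ w, SimpleGraph.ConnectedComponent.sound h2.symm⟩) (by
      rw [card_univ]
      exact h)
  have hcard : ∀ i, (cl univ f i).card = (cl univ mk i).card := by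
    intro i
    by_cases hi : i ∈ J
    · exact hf.card i hi
    · rw [card_eq_zero.mpr, card_eq_zero.mpr]
      · ext v
        rw [mem_cl]
        constructor
        · rintro ⟨_, h2⟩; exact absurd (h2 ▸ hJ v) hi
        · intro h2; exact absurd h2 (notMem_empty _)
      · ext v
        rw [mem_cl]
        constructor
        · rintro ⟨_, h2⟩; exact absurd (h2 ▸ hf.maps v (mem_univ v)) hi
        · intro h2; exact absurd h2 (notMem_empty _)
  have heq : ∀ i, Nonempty ({v // f v = i} ≃ {v // mk v = i}) := by
    intro i
    refine ⟨Fintype.equivOfCardEq ?_⟩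
    rw [Fintype.card_subtype, Fintype.card_subtype]
    exact hcard i
  let σ : V ≃ V := Equiv.ofFiberEquiv (fun i => (heq i).some)
  have hσ : ∀ v, mk (σ v) = f v := fun v => Equiv.ofFiberEquiv_map _ v
  refine ⟨σ, ?_⟩
  intro u v huv hadj
  have h1 := hf.proper u (mem_univ u) v (mem_univ v) huv
  rw [← hσ u, ← hσ v] at h1
  exact h1 (SimpleGraph.ConnectedComponent.sound hadj.reachable)

end

end Pool.Agent.Helper64.BEC
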