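import Mathlib

/-!
Colourings with prescribed class sizes (after the Kierstead-Kostochka proof of the
Hajnal-Szemeredi theorem): basic notions and the shifting lemma.
-/

set_option autoImplicit false

open Classical Finset

namespace Pool.Agent.Helper64.BEC

noncomputable section

variable {V ι : Type*}

/-- Colour class. -/
def cl (X : Finset V) (f : V → ι) (i : ι) : Finset V := X.filter (fun v => f v = i)

/-- Neighbours of `v` in `Y`. -/
def nbs (G : SimpleGraph V) (Y : Finset V) (v : V) : Finset V := Y.filter (fun w => G.Adj v w)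

/-- Neighbours of `v` in `X` of colour `i`. -/
def nbc (G : SimpleGraph V) (X : Finset V) (f : V → ι) (v : V) (i : ι) : Finset V :=
  X.filter (fun w => G.Adj v w ∧ f w = i)

/-- Proper colouring on `X`. -/
def Proper (G : SimpleGraph V) (X : Finset V) (f : V → ι) : Prop :=
  ∀ v ∈ X, ∀ w ∈ X, G.Adj v w → f v ≠ f w

/-- Proper colouring of `X` by the colours of `J` with class sizes `s`. -/
structure Exact (G : SimpleGraph V) (X : Finset V) (J : Finset ι) (s : ι → ℕ) (f : V → ι) :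
    Prop where
  maps : ∀ v ∈ X, f v ∈ J
  proper : Proper G X f
  card : ∀ i ∈ J, (cl X f i).card = s i

/-- The class `α` has one vertex too few, the class `β` one too many. -/
structure Near (G : SimpleGraph V) (X : Finset V) (J : Finset ι) (s : ι → ℕ) (f : V → ι)
    (α β : ι) : Prop where
  maps : ∀ v ∈ X, f v ∈ J
  proper : Proper G X f
  hα : α ∈ J
  hβ : β ∈ J
  ne : α ≠ β
  card : ∀ i ∈ J, (cl X f i).card + (if i = α then 1 else 0) = s i + (if i = β then 1 else 0)

/-- `v` has no neighbour of colour `j`. -/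
def Free (G : SimpleGraph V) (X : Finset V) (f : V → ι) (v : V) (j : ι) : Prop :=
  ∀ w ∈ X, f w = j → ¬ G.Adj v w

/-- Some vertex of colour `i` can be moved to colour `j`. -/
def Mov (G : SimpleGraph V) (X : Finset V) (f : V → ι) (i j : ι) : Prop :=
  i ≠ j ∧ ∃ v ∈ X, f v = i ∧ Free G X f v j

/-- Paths of length `k` to `α` inside `P`. -/
def Rk (R : ι → ι → Prop) (P : ι → Prop) (α : ι) : ℕ → ι → Prop
  | 0, i => i = α ∧ P i
  | k + 1, i => P i ∧ ∃ j, R i j ∧ Rk R P α k j

theorem mem_cl {X : Finset V} {f : V → ι} {i : ι} {v : V} : v ∈ cl X f i ↔ v ∈ X ∧ f v = i := by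
  simp [cl]

theorem mem_nbs {G : SimpleGraph V} {Y : Finset V} {v w : V} : w ∈ nbs G Y v ↔ w ∈ Y ∧ G.Adj v w := by
  simp [nbs]

theorem mem_nbc {G : SimpleGraph V} {X : Finset V} {f : V → ι} {v w : V} {i : ι} :
    w ∈ nbc G X f v i ↔ w ∈ X ∧ G.Adj v w ∧ f w = i := by
  simp [nbc]

theorem Rk_P {R : ι → ι → Prop} {P : ι → Prop} {α : ι} {k : ℕ} {i : ι} (h : Rk R P α k i) : P i := by
  cases k with
  | zero => exact h.2
  | succ k => exact h.1

theorem Rk_mono {R : ι → ι → Prop} {P Q : ι → Prop} (hPQ : ∀ i, P i → Q i) {α : ι} :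
    ∀ {k : ℕ} {i : ι}, Rk R P α k i → Rk R Q α k i := by
  intro k
  induction k with
  | zero => intro i h; exact ⟨h.1, hPQ _ h.2⟩
  | succ k ih => intro i h; exact ⟨hPQ _ h.1, h.2.imp fun j hj => ⟨hj.1, ih hj.2⟩⟩

theorem card_update (X : Finset V) (f : V → ι) (y : V) (hy : y ∈ X) (i j : ι) (hi : f y = i)
    (hij : i ≠ j) (t : ι) :
    (cl X (Function.update f y j) t).card + (if t = i then 1 else 0) =
      (cl X f t).card + (if t = j then 1 else 0) := by
  by_cases h1 : t = i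
  · subst h1
    have h2 : cl X (Function.update f y j) t = (cl X f t).erase y := by
      ext v
      rw [mem_cl, mem_erase, mem_cl]
      by_cases hv : v = y
      · subst hv; simp [hij.symm]
      · simp [hv]
    have h3 : y ∈ cl X f t := mem_cl.mpr ⟨hy, hi⟩
    rw [h2, card_erase_of_mem h3, if_pos rfl, if_neg hij]
    have := card_pos.mpr ⟨y, h3⟩
    omega
  · by_cases h2 : t = j
    · subst h2
      have h3 : cl X (Function.update f y t) t = insert y (cl X f t) := by
        ext v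
        rw [mem_cl, mem_insert, mem_cl]
        by_cases hv : v = y
        · subst hv; simp [hy]
        · simp [hv]
      have h4 : y ∉ cl X f t := fun h => hij ((mem_cl.mp h).2 ▸ hi.symm)
      rw [h3, card_insert_of_notMem h4, if_neg h1, if_pos rfl]
    · have h3 : cl X (Function.update f y j) t = cl X f t := by
        ext v
        rw [mem_cl, mem_cl]
        by_cases hv : v = y
        · subst hv
          simp only [Function.update_self]
          constructor
          · intro h; exact absurd h.2.symm h2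
          · intro h; exact absurd (h.2.symm.trans hi) h1
        · simp [hv]
      rw [h3, if_neg h1, if_neg h2]

theorem shift_aux (G : SimpleGraph V) (X : Finset V) (f : V → ι) (hf : Proper G X f)
    (P : ι → Prop) (α : ι) : ∀ (k : ℕ) (i : ι), Rk (Mov G X f) P α k i →
    (∀ k' < k, ¬ Rk (Mov G X f) P α k' i) →
    ∃ f' : V → ι, Proper G X f' ∧
      (∀ t, (cl X f' t).card + (if t = i then 1 else 0) =
        (cl X f t).card + (if t = α then 1 else 0)) ∧
      ∀ v, f' v ≠ f v → (∃ k' ≤ k, Rk (Mov G X f) P α k' (f v)) ∧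
        (∃ k' ≤ k, Rk (Mov G X f) P α k' (f' v)) ∧ f' v ≠ i := by
  intro k
  induction k with
  | zero =>
    intro i h _
    refine ⟨f, hf, ?_, fun v hv => absurd rfl hv⟩
    intro t
    rw [h.1]
  | succ k ih =>
    intro i h hmin
    obtain ⟨hPi, j, ⟨hij, y, hyX, hyi, hyfree⟩, hj⟩ := h
    have hjmin : ∀ k' < k, ¬ Rk (Mov G X f) P α k' j := by
      intro k' hk' hk2
      exact hmin (k' + 1) (by omega) ⟨hPi, j, ⟨hij, y, hyX, hyi, hyfree⟩, hk2⟩
    obtain ⟨f2, hf2, hcard, hch⟩ := ih j hj hjmin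
    have hinot : ∀ k' ≤ k, ¬ Rk (Mov G X f) P α k' i := fun k' hk' => hmin k' (by omega)
    have hy2 : f2 y = i := by
      by_contra hne
      have h1 := hch y (by rw [hyi]; exact hne)
      obtain ⟨k', hk', hk2⟩ := h1.1
      rw [hyi] at hk2
      exact hinot k' hk' hk2
    refine ⟨Function.update f2 y j, ?_, ?_, ?_⟩
    · intro v hv w hw hvw
      have key : ∀ w ∈ X, w ≠ y → G.Adj y w → f2 w ≠ j := by
        intro w hw _ hadj hwj
        by_cases hww : f2 w = f w
        · exact hyfree w hw (hww ▸ hwj) hadj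
        · exact (hch w hww).2.2 hwj
      by_cases hvy : v = y
      · subst hvy
        have hwv : w ≠ v := hvw.ne'
        rw [Function.update_self, Function.update_of_ne hwv]
        exact (key w hw hwv hvw).symm
      · by_cases hwy : w = y
        · subst hwy
          rw [Function.update_self, Function.update_of_ne hvy]
          exact key v hv hvy hvw.symm
        · rw [Function.update_of_ne hvy, Function.update_of_ne hwy]
          exact hf2 v hv w hw hvw
    · intro t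
      have h1 := card_update X f2 y hyX i j hy2 hij t
      have h2 := hcard t
      omega
    · intro v hv
      by_cases hvy : v = y
      · subst hvy
        rw [Function.update_self]
        refine ⟨⟨k + 1, le_rfl, ?_⟩, ⟨k, by omega, hj⟩, hij.symm⟩
        rw [hyi]
        exact ⟨hPi, j, ⟨hij, v, hyX, hyi, hyfree⟩, hj⟩
      · rw [Function.update_of_ne hvy] at hv ⊢
        obtain ⟨⟨k1, hk1, h1⟩, ⟨k2, hk2, h2⟩, h3⟩ := hch v hv
        refine ⟨⟨k1, by omega, h1⟩, ⟨k2, by omega, h2⟩, ?_⟩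
        intro h4
        rw [h4] at h2
        exact hinot k2 hk2 h2

theorem shift (G : SimpleGraph V) (X : Finset V) (f : V → ι) (hf : Proper G X f)
    (P : ι → Prop) (α i : ι) (h : ∃ k, Rk (Mov G X f) P α k i) :
    ∃ f' : V → ι, Proper G X f' ∧
      (∀ t, (cl X f' t).card + (if t = i then 1 else 0) =
        (cl X f t).card + (if t = α then 1 else 0)) ∧
      ∀ v, f' v ≠ f v → (∃ k', Rk (Mov G X f) P α k' (f v)) ∧
        (∃ k', Rk (Mov G X f) P α k' (f' v)) ∧ f' v ≠ i := by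
  obtain ⟨f', h1, h2, h3⟩ := shift_aux G X f hf P α (Nat.find h) i (Nat.find_spec h)
    (fun k' hk' => Nat.find_min h hk')
  refine ⟨f', h1, h2, fun v hv => ?_⟩
  obtain ⟨⟨k1, _, h4⟩, ⟨k2, _, h5⟩, h6⟩ := h3 v hv
  exact ⟨⟨k1, h4⟩, ⟨k2, h5⟩, h6⟩

/-- Terminal structure of the accessible classes. -/
theorem digraph (J : Finset ι) (R : ι → ι → Prop) (α : ι) (hα : α ∈ J) (A : Finset ι)
    (hA : ∀ i, i ∈ A ↔ ∃ k, Rk R (· ∈ J) α k i) (hne : ∃ i ∈ A, i ≠ α) :
    ∃ (U : ι) (T : Finset ι), U ∈ A ∧ T ⊆ A ∧ T.Nonempty ∧ U ∉ T ∧ α ∉ T ∧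
      (∀ W ∈ T, ∀ i ∈ A, i ≠ W → ∃ k, Rk R (fun j => j ∈ J ∧ j ≠ W) α k i) ∧
      (∀ W ∈ T, ∀ i ∈ A, i ∉ T → i ≠ U → ¬ R W i) := by
  let T : ι → Finset ι := fun U => A.filter
    (fun i => i ≠ U ∧ ¬ ∃ k, Rk R (fun j => j ∈ J ∧ j ≠ U) α k i)
  have hT : ∀ U i, i ∈ T U ↔ i ∈ A ∧ i ≠ U ∧ ¬ ∃ k, Rk R (fun j => j ∈ J ∧ j ≠ U) α k i := by
    intro U i
    simp only [T, mem_filter]
  have hAJ : ∀ i ∈ A, i ∈ J := fun i hi => by
    obtain ⟨k, hk⟩ := (hA i).mp hi
    exact Rk_P hk
  have hαA : α ∈ A := (hA α).mpr ⟨0, rfl, hα⟩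
  have hTα : (T α).Nonempty := by
    obtain ⟨i, hi, hiα⟩ := hne
    refine ⟨i, (hT α i).mpr ⟨hi, hiα, ?_⟩⟩
    rintro ⟨k, hk⟩
    have : ∀ k i, ¬ Rk R (fun j => j ∈ J ∧ j ≠ α) α k i := by
      intro k
      induction k with
      | zero => intro i h; exact h.2.2 h.1
      | succ k ih => intro i h; obtain ⟨j, _, hj⟩ := h.2; exact ih j hj
    exact this k i hk
  obtain ⟨U, hU, hmin⟩ := exists_min_image (A.filter (fun U => (T U).Nonempty))
    (fun U => (T U).card) ⟨α, mem_filter.mpr ⟨hαA, hTα⟩⟩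
  rw [mem_filter] at hU
  have path1 : ∀ (W : ι) (k : ℕ) (i : ι), Rk R (fun j => j ∈ J ∧ j ≠ U) α k i →
      (∃ k, Rk R (fun j => j ∈ J ∧ j ≠ W) α k i) ∨ (∃ k, Rk R (fun j => j ∈ J ∧ j ≠ U) α k W) := by
    intro W k
    induction k with
    | zero =>
      intro i h
      by_cases hiW : i = W
      · subst hiW; exact Or.inr ⟨0, h⟩
      · exact Or.inl ⟨0, h.1, h.2.1, hiW⟩
    | succ k ih =>
      intro i h
      by_cases hiW : i = W
      · subst hiW; exact Or.inr ⟨k + 1, h⟩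
      · obtain ⟨j, hj1, hj2⟩ := h.2
        rcases ih j hj2 with ⟨k', hk'⟩ | h'
        · exact Or.inl ⟨k' + 1, ⟨h.1.1, hiW⟩, j, hj1, hk'⟩
        · exact Or.inr h'
  have path2 : ∀ (k : ℕ) (i : ι), Rk R (· ∈ J) α k i →
      (∃ k, Rk R (fun j => j ∈ J ∧ j ≠ U) α k i) ∨ U = α ∨
        (∃ j, R U j ∧ ∃ k, Rk R (fun j => j ∈ J ∧ j ≠ U) α k j) := by
    intro k
    induction k with
    | zero =>
      intro i h
      by_cases hiU : i = U
      · subst hiU; exact Or.inr (Or.inl h.1)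
      · exact Or.inl ⟨0, h.1, h.2, hiU⟩
    | succ k ih =>
      intro i h
      obtain ⟨j, hj1, hj2⟩ := h.2
      rcases ih j hj2 with ⟨k', hk'⟩ | h'
      · by_cases hiU : i = U
        · subst hiU; exact Or.inr (Or.inr ⟨j, hj1, k', hk'⟩)
        · exact Or.inl ⟨k' + 1, ⟨h.1, hiU⟩, j, hj1, hk'⟩
      · exact Or.inr h'
  refine ⟨U, T U, hU.1, filter_subset _ _, hU.2, ?_, ?_, ?_, ?_⟩
  · intro h; exact ((hT U U).mp h).2.1 rfl
  · intro h
    have h2 := (hT U α).mp h
    exact h2.2.2 ⟨0, rfl, hα, h2.2.1⟩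
  · intro W hW i hi hiW
    by_contra hno
    have hW' := (hT U W).mp hW
    have hTW : (T W).Nonempty := ⟨i, (hT W i).mpr ⟨hi, hiW, hno⟩⟩
    have hsub : T W ⊆ (T U).erase W := by
      intro j hj
      have hj' := (hT W j).mp hj
      rw [mem_erase]
      refine ⟨hj'.2.1, (hT U j).mpr ⟨hj'.1, ?_, ?_⟩⟩
      · intro hjU
        subst hjU
        obtain ⟨k, hk⟩ := (hA j).mp hj'.1
        rcases path2 k j hk with ⟨k', hk'⟩ | h' | ⟨j', hj1, k', hk'⟩
        · exact (Rk_P hk').2 rfl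
        · exact hj'.2.2 ⟨0, h', hAJ _ hj'.1, hj'.2.1⟩
        · rcases path1 W k' j' hk' with ⟨k2, hk2⟩ | h2
          · exact hj'.2.2 ⟨k2 + 1, ⟨hAJ _ hj'.1, hj'.2.1⟩, j', hj1, hk2⟩
          · exact hW'.2.2 h2
      · rintro ⟨k, hk⟩
        rcases path1 W k j hk with h2 | h2
        · exact hj'.2.2 h2
        · exact hW'.2.2 h2
    have h1 := hmin W (mem_filter.mpr ⟨hW'.1, hTW⟩)
    have h2 := card_le_card hsub
    rw [card_erase_of_mem hW] at h2
    have h3 := card_pos.mpr ⟨W, hW⟩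
    omega
  · intro W hW i hi hiT hiU hR
    have hW' := (hT U W).mp hW
    have : ∃ k, Rk R (fun j => j ∈ J ∧ j ≠ U) α k i := by
      by_contra hno
      exact hiT ((hT U i).mpr ⟨hi, hiU, hno⟩)
    obtain ⟨k, hk⟩ := this
    exact hW'.2.2 ⟨k + 1, ⟨hAJ _ hW'.1, hW'.2.1⟩, i, hR, hk⟩

theorem dcount (G : SimpleGraph V) (S T : Finset V) :
    ∑ x ∈ S, (nbs G T x).card = ∑ y ∈ T, (nbs G S y).card := by
  simp only [nbs, card_filter]
  rw [sum_comm]
  refine sum_congr rfl (fun y _ => sum_congr rfl (fun x _ => ?_))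
  rw [G.adj_comm]

end

end Pool.Agent.Helper64.BEC
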