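import Pool.Agent.Helper64.BEC.Basic

/-!
Counting facts around the accessible classes.
-/

set_option autoImplicit false

open Classical Finset

namespace Pool.Agent.Helper64.BEC

noncomputable section

variable {V ι : Type*}

/-- Accessible colours. -/
def acc (G : SimpleGraph V) (X : Finset V) (J : Finset ι) (f : V → ι) (α : ι) : Finset ι :=
  J.filter (fun i => ∃ k, Rk (Mov G X f) (· ∈ J) α k i)

theorem mem_acc {G : SimpleGraph V} {X : Finset V} {J : Finset ι} {f : V → ι} {α i : ι} :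
    i ∈ acc G X J f α ↔ ∃ k, Rk (Mov G X f) (· ∈ J) α k i := by
  rw [acc, mem_filter]
  exact ⟨fun h => h.2, fun h => ⟨Rk_P h.choose_spec, h⟩⟩

theorem acc_sub {G : SimpleGraph V} {X : Finset V} {J : Finset ι} {f : V → ι} {α : ι} :
    acc G X J f α ⊆ J := filter_subset _ _

/-- The set of vertices with non-accessible colours. -/
def bset (X : Finset V) (A : Finset ι) (f : V → ι) : Finset V := X.filter (fun v => f v ∉ A)

theorem mem_bset {X : Finset V} {A : Finset ι} {f : V → ι} {v : V} :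
    v ∈ bset X A f ↔ v ∈ X ∧ f v ∉ A := by
  simp [bset]

theorem deg_split (G : SimpleGraph V) (X : Finset V) (A : Finset ι) (f : V → ι) (v : V) :
    ∑ i ∈ A, (nbc G X f v i).card + (nbs G (bset X A f) v).card = (nbs G X v).card := by
  have h1 : ((nbs G X v).filter (fun w => f w ∈ A)).card = ∑ i ∈ A, (nbc G X f v i).card := by
    rw [card_eq_sum_card_fiberwise (f := f) (t := A)]
    · refine sum_congr rfl (fun i hi => ?_)
      congr 1
      ext w
      simp only [mem_filter, mem_nbs, mem_nbc]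
      constructor
      · rintro ⟨⟨⟨h1, h2⟩, _⟩, h3⟩; exact ⟨h1, h2, h3⟩
      · rintro ⟨h1, h2, h3⟩; exact ⟨⟨⟨h1, h2⟩, h3 ▸ hi⟩, h3⟩
    · intro w hw
      exact (mem_filter.mp hw).2
  have h2 : (nbs G X v).filter (fun w => ¬ f w ∈ A) = nbs G (bset X A f) v := by
    ext w
    simp only [mem_filter, mem_nbs, mem_bset]
    tauto
  rw [← h1, ← h2]
  exact card_filter_add_card_filter_not _

theorem nbc_nonempty (G : SimpleGraph V) (X : Finset V) (J : Finset ι) (f : V → ι) (α : ι)
    (hmaps : ∀ v ∈ X, f v ∈ J) (y : V) (hy : y ∈ X) (hyA : f y ∉ acc G X J f α) (i : ι)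
    (hi : i ∈ acc G X J f α) : 1 ≤ (nbc G X f y i).card := by
  rw [Nat.one_le_iff_ne_zero, Ne, card_eq_zero]
  intro hemp
  apply hyA
  rw [mem_acc]
  obtain ⟨k, hk⟩ := mem_acc.mp hi
  refine ⟨k + 1, hmaps y hy, i, ⟨?_, y, hy, rfl, ?_⟩, hk⟩
  · intro h; rw [h] at hyA; exact hyA hi
  · intro w hw hwi hadj
    have : w ∈ nbc G X f y i := mem_nbc.mpr ⟨hw, hadj, hwi⟩
    rw [hemp] at this
    exact absurd this (notMem_empty _)

theorem card_le_sum (A : Finset ι) (g : ι → ℕ) (h : ∀ i ∈ A, 1 ≤ g i) : A.card ≤ ∑ i ∈ A, g i := by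
  have := sum_le_sum h
  simpa using this

theorem card_cls (X : Finset V) (A : Finset ι) (f : V → ι) :
    (bset X A f).card + ∑ i ∈ A, (cl X f i).card = X.card := by
  have h1 : (X.filter (fun w => f w ∈ A)).card = ∑ i ∈ A, (cl X f i).card := by
    rw [card_eq_sum_card_fiberwise (f := f) (t := A)]
    · refine sum_congr rfl (fun i hi => ?_)
      congr 1
      ext w
      simp only [mem_filter, mem_cl]
      constructor
      · rintro ⟨⟨h1, _⟩, h3⟩; exact ⟨h1, h3⟩
      · rintro ⟨h1, h3⟩; exact ⟨⟨h1, h3 ▸ hi⟩, h3⟩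
    · intro w hw
      exact (mem_filter.mp hw).2
  rw [← h1, bset, add_comm]
  exact card_filter_add_card_filter_not _

/-- All the numerical data in one structure. -/
structure Ctx (G : SimpleGraph V) (X : Finset V) (J : Finset ι) (s : ι → ℕ) (f : V → ι)
    (α β : ι) (r c : ℕ) : Prop where
  near : Near G X J s f α β
  hdeg : ∀ v ∈ X, (nbs G X v).card ≤ r
  hsum : ∑ i ∈ J, s i = X.card
  hc : ∀ i ∈ J, s i ≤ c
  hbig : (r + 1) * c ≤ X.card + 1
  hβ : β ∉ acc G X J f α

variable {G : SimpleGraph V} {X : Finset V} {J : Finset ι} {s : ι → ℕ} {f : V → ι} {α β : ι}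
  {r c : ℕ}

theorem Ctx.hα (h : Ctx G X J s f α β r c) : α ∈ acc G X J f α :=
  mem_acc.mpr ⟨0, rfl, h.near.hα⟩

theorem Ctx.sumA (h : Ctx G X J s f α β r c) :
    ∑ i ∈ acc G X J f α, (cl X f i).card + 1 = ∑ i ∈ acc G X J f α, s i := by
  have h1 : ∑ i ∈ acc G X J f α, ((cl X f i).card + (if i = α then 1 else 0)) =
      ∑ i ∈ acc G X J f α, (s i + (if i = β then 1 else 0)) :=
    sum_congr rfl (fun i hi => h.near.card i (acc_sub hi))
  rw [sum_add_distrib, sum_add_distrib, sum_ite_eq', sum_ite_eq', if_pos h.hα, if_neg h.hβ] at h1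
  simpa using h1

theorem Ctx.cardB (h : Ctx G X J s f α β r c) :
    (bset X (acc G X J f α) f).card + ∑ i ∈ acc G X J f α, s i = X.card + 1 := by
  have h1 := h.sumA
  have h2 := card_cls X (acc G X J f α) f
  omega

theorem Ctx.sumB (h : Ctx G X J s f α β r c) :
    ∑ i ∈ J \ acc G X J f α, s i + 1 = (bset X (acc G X J f α) f).card := by
  have h1 := h.cardB
  have h2 := h.hsum
  rw [← sum_sdiff (acc_sub (G := G) (X := X) (J := J) (f := f) (α := α))] at h2
  omega

theorem Ctx.star (h : Ctx G X J s f α β r c) :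
    (r + 1) * c ≤ (acc G X J f α).card * c + (bset X (acc G X J f α) f).card := by
  have h1 := h.cardB
  have h2 : ∑ i ∈ acc G X J f α, s i ≤ ∑ i ∈ acc G X J f α, c :=
    sum_le_sum (fun i hi => h.hc i (acc_sub hi))
  rw [sum_const, smul_eq_mul] at h2
  have h3 := h.hbig
  omega

theorem Ctx.Bne (h : Ctx G X J s f α β r c) : ∃ y ∈ bset X (acc G X J f α) f, f y = β := by
  have h1 := h.near.card β h.near.hβ
  rw [if_neg h.near.ne.symm, if_pos rfl] at h1
  have h2 : (cl X f β).Nonempty := by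
    rw [← card_pos]; omega
  obtain ⟨y, hy⟩ := h2
  rw [mem_cl] at hy
  exact ⟨y, mem_bset.mpr ⟨hy.1, hy.2 ▸ h.hβ⟩, hy.2⟩

theorem Ctx.degB (h : Ctx G X J s f α β r c) (y : V) (hy : y ∈ bset X (acc G X J f α) f) :
    (acc G X J f α).card + (nbs G (bset X (acc G X J f α) f) y).card ≤ r := by
  have h1 := deg_split G X (acc G X J f α) f y
  have h2 := h.hdeg y (mem_bset.mp hy).1
  have h3 := card_le_sum (acc G X J f α) (fun i => (nbc G X f y i).card)
    (fun i hi => nbc_nonempty G X J f α h.near.maps y (mem_bset.mp hy).1 (mem_bset.mp hy).2 i hi)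
  omega

theorem Ctx.cls_le (h : Ctx G X J s f α β r c) (i : ι) (hi : i ∈ acc G X J f α) :
    (cl X f i).card + (if i = α then 1 else 0) ≤ c := by
  have h1 := h.near.card i (acc_sub hi)
  have h2 : i ≠ β := fun h2 => h.hβ (h2 ▸ hi)
  rw [if_neg h2] at h1
  have h3 := h.hc i (acc_sub hi)
  omega

theorem Ctx.two_le (h : Ctx G X J s f α β r c) : 2 ≤ c := by
  obtain ⟨y, hy, _⟩ := h.Bne
  have h1 := nbc_nonempty G X J f α h.near.maps y (mem_bset.mp hy).1 (mem_bset.mp hy).2 α h.hα
  have h2 : (nbc G X f y α).card ≤ (cl X f α).card := by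
    apply card_le_card
    intro w hw
    rw [mem_nbc] at hw
    exact mem_cl.mpr ⟨hw.1, hw.2.2⟩
  have h3 := h.cls_le α h.hα
  rw [if_pos rfl] at h3
  omega

theorem Ctx.card_J (h : Ctx G X J s f α β r c) : r + 1 ≤ J.card := by
  by_contra hlt
  push Not at hlt
  have h1 : ∑ i ∈ J, s i ≤ ∑ i ∈ J, c := sum_le_sum h.hc
  rw [sum_const, smul_eq_mul, h.hsum] at h1
  have h2 := h.hbig
  have h3 := h.two_le
  have h4 : J.card * c ≤ r * c := Nat.mul_le_mul_right c (by omega)
  have h5 : (r + 1) * c = r * c + c := by ring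
  omega

/-- There is an accessible colour besides `α`. -/
theorem Ctx.exists_ne (h : Ctx G X J s f α β r c) : ∃ i ∈ acc G X J f α, i ≠ α := by
  by_contra hno
  push Not at hno
  have hA : acc G X J f α = {α} := by
    ext i
    rw [mem_singleton]
    exact ⟨hno i, fun hi => hi ▸ h.hα⟩
  have hstar := h.star
  have hdc := dcount G (cl X f α) (bset X (acc G X J f α) f)
  have h1 : ∑ x ∈ cl X f α, (nbs G (bset X (acc G X J f α) f) x).card ≤ ∑ x ∈ cl X f α, r := by
    refine sum_le_sum (fun x hx => ?_)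
    have h2 := deg_split G X (acc G X J f α) f x
    have h3 := h.hdeg x (mem_cl.mp hx).1
    omega
  have h2 : (bset X (acc G X J f α) f).card ≤
      ∑ y ∈ bset X (acc G X J f α) f, (nbs G (cl X f α) y).card := by
    apply card_le_sum
    intro y hy
    have h3 := nbc_nonempty G X J f α h.near.maps y (mem_bset.mp hy).1 (mem_bset.mp hy).2 α h.hα
    have h4 : nbc G X f y α = nbs G (cl X f α) y := by
      ext w
      rw [mem_nbc, mem_nbs, mem_cl]
      tauto
    rw [← h4]
    exact h3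
  rw [sum_const, smul_eq_mul] at h1
  have h3 := h.cls_le α h.hα
  rw [if_pos rfl] at h3
  obtain ⟨y, hy, _⟩ := h.Bne
  have h4 := h.degB y hy
  rw [hA, card_singleton] at hstar h4
  rw [hA] at h1 h2 hdc
  have h5 : (cl X f α).card * r + r ≤ c * r := by
    have : ((cl X f α).card + 1) * r ≤ c * r := Nat.mul_le_mul_right r h3
    linarith
  have h6 : (r + 1) * c = c * r + c := by ring
  omega

end

end Pool.Agent.Helper64.BEC
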