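import Pool.Agent.Helper64.BEC.Count

/-!
If no solo vertex is movable, some solo vertex has two non-adjacent special neighbours.
-/

set_option autoImplicit false

open Classical Finset

namespace Pool.Agent.Helper64.BEC

noncomputable section

variable {V ι : Type*} {G : SimpleGraph V} {X : Finset V} {J : Finset ι} {s : ι → ℕ} {f : V → ι}
  {α β : ι} {r c : ℕ}

/-- Independent sets. -/
def Indep (G : SimpleGraph V) (I : Finset V) : Prop := ∀ x ∈ I, ∀ y ∈ I, ¬ G.Adj x y

theorem exists_max_indep (G : SimpleGraph V) (B : Finset V) :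
    ∃ I ⊆ B, (∀ x ∈ I, ∀ y ∈ I, ¬ G.Adj x y) ∧ ∀ y ∈ B, y ∈ I ∨ ∃ x ∈ I, G.Adj x y := by
  obtain ⟨I, hI, hmax⟩ := exists_max_image
    (B.powerset.filter (fun I => Indep G I)) (fun I => I.card)
    ⟨∅, by simp [Indep]⟩
  rw [mem_filter, mem_powerset] at hI
  refine ⟨I, hI.1, hI.2, ?_⟩
  intro y hy
  by_contra hno
  push Not at hno
  have h1 : insert y I ∈ B.powerset.filter (fun I => Indep G I) := by
    rw [mem_filter, mem_powerset]
    refine ⟨insert_subset hy hI.1, ?_⟩
    intro u hu v hv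
    rw [mem_insert] at hu hv
    rcases hu with rfl | hu
    · rcases hv with rfl | hv
      · exact G.irrefl
      · exact fun h => hno.2 v hv h.symm
    · rcases hv with rfl | hv
      · exact hno.2 u hu
      · exact hI.2 u hu v hv
  have h2 := hmax _ h1
  rw [card_insert_of_notMem hno.1] at h2
  omega

theorem cover_le (G : SimpleGraph V) (B I : Finset V)
    (hI : ∀ y ∈ B, y ∈ I ∨ ∃ x ∈ I, G.Adj x y) :
    B.card ≤ ∑ x ∈ I, ((nbs G B x).card + 1) := by
  have h1 : B ⊆ I.biUnion (fun x => insert x (nbs G B x)) := by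
    intro y hy
    rw [mem_biUnion]
    rcases hI y hy with h | ⟨x, hx, h⟩
    · exact ⟨y, h, mem_insert_self _ _⟩
    · exact ⟨x, hx, mem_insert_of_mem (mem_nbs.mpr ⟨hy, h⟩)⟩
  refine (card_le_card h1).trans (card_biUnion_le.trans ?_)
  exact sum_le_sum (fun x _ => card_insert_le _ _)

theorem not_free_iff {v : V} {j : ι} : ¬ Free G X f v j ↔ 1 ≤ (nbc G X f v j).card := by
  rw [Nat.one_le_iff_ne_zero, Ne, card_eq_zero, not_iff_not]
  constructor
  · intro h
    ext w
    rw [mem_nbc]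
    constructor
    · rintro ⟨h1, h2, h3⟩; exact absurd h2 (h w h1 h3)
    · intro h1; exact absurd h1 (notMem_empty _)
  · intro h w hw hwj hadj
    have : w ∈ nbc G X f v j := mem_nbc.mpr ⟨hw, hadj, hwj⟩
    rw [h] at this
    exact notMem_empty _ this

theorem nbc_eq_nbs_cl (v : V) (i : ι) : nbc G X f v i = nbs G (cl X f i) v := by
  ext w
  rw [mem_nbc, mem_nbs, mem_cl]
  tauto

theorem Ctx.find (h : Ctx G X J s f α β r c) (U : ι) (T : Finset ι)
    (hU : U ∈ acc G X J f α) (hTA : T ⊆ acc G X J f α) (hTne : T.Nonempty) (hUT : U ∉ T)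
    (hαT : α ∉ T)
    (hsep : ∀ W ∈ T, ∀ i ∈ acc G X J f α, i ∉ T → i ≠ U → ¬ Mov G X f W i)
    (hsolo : ∀ W ∈ T, ∀ z ∈ X, f z = W → (∃ y ∈ bset X (acc G X J f α) f, nbc G X f y W = {z}) →
      ∀ Z ∈ acc G X J f α, Z ≠ W → ¬ Free G X f z Z) :
    ∃ W ∈ T, ∃ z ∈ X, f z = W ∧ ∃ y₁ ∈ bset X (acc G X J f α) f,
      ∃ y₂ ∈ bset X (acc G X J f α) f, y₁ ≠ y₂ ∧ ¬ G.Adj y₁ y₂ ∧
      nbc G X f y₁ W = {z} ∧ nbc G X f y₂ W = {z} := by
  set A := acc G X J f α with hAdef
  set B := bset X A f with hBdef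
  obtain ⟨y0, hy0, _⟩ := h.Bne
  have har : A.card ≤ r := by
    have := h.degB y0 hy0
    rw [← hAdef] at this
    omega
  obtain ⟨q, hq⟩ : ∃ q, A.card + q = r + 1 := ⟨r + 1 - A.card, by omega⟩
  have hB : q * c ≤ B.card := by
    have h1 := h.star
    rw [← hAdef, ← hBdef, ← hq, add_mul] at h1
    omega
  have hdB : ∀ y ∈ B, (nbs G B y).card + 1 ≤ q := by
    intro y hy
    have h1 := h.degB y hy
    rw [← hAdef, ← hBdef] at h1
    omega
  have d2 : ∀ x ∈ X, ∀ W ∈ A, (∀ Z ∈ A, Z ≠ W → ¬ Free G X f x Z) → (nbs G B x).card ≤ q := by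
    intro x hx W hW hx2
    have h1 := deg_split G X A f x
    have h2 := h.hdeg x hx
    have h3 : (A.erase W).card ≤ ∑ i ∈ A.erase W, (nbc G X f x i).card := by
      apply card_le_sum
      intro i hi
      rw [mem_erase] at hi
      exact not_free_iff.mp (hx2 i hi.2 hi.1)
    have h4 : ∑ i ∈ A.erase W, (nbc G X f x i).card ≤ ∑ i ∈ A, (nbc G X f x i).card :=
      sum_le_sum_of_subset (erase_subset _ _)
    rw [card_erase_of_mem hW] at h3
    rw [← hBdef] at h1
    omega
  have d1 : ∀ x ∈ X, f x ∈ T → (nbs G B x).card ≤ q + T.card := by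
    intro x hx hxT
    have h1 := deg_split G X A f x
    have h2 := h.hdeg x hx
    have h3 : (A \ insert U T).card ≤ ∑ i ∈ A \ insert U T, (nbc G X f x i).card := by
      apply card_le_sum
      intro i hi
      rw [mem_sdiff, mem_insert, not_or] at hi
      apply not_free_iff.mp
      intro hfree
      refine hsep (f x) hxT i hi.1 hi.2.2 hi.2.1 ⟨?_, x, hx, rfl, hfree⟩
      rintro rfl
      exact hi.2.2 hxT
    have h4 : ∑ i ∈ A \ insert U T, (nbc G X f x i).card ≤ ∑ i ∈ A, (nbc G X f x i).card :=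
      sum_le_sum_of_subset sdiff_subset
    have h5 : (A \ insert U T).card + (insert U T).card = A.card :=
      card_sdiff_add_card_eq_card (insert_subset hU hTA)
    rw [card_insert_of_notMem hUT] at h5
    rw [← hBdef] at h1
    omega
  have d3 : ∀ y ∈ B, T.card + ((nbs G B y).card + 1) ≤
      q + (T.filter (fun W => (nbc G X f y W).card = 1)).card := by
    intro y hy
    have hyX := (mem_bset.mp hy).1
    have hyA := (mem_bset.mp hy).2
    have h1 := deg_split G X A f y
    have h2 := h.hdeg y hyX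
    have h3 : ∑ i ∈ A, (1 + (if i ∈ T ∧ (nbc G X f y i).card ≠ 1 then 1 else 0)) ≤
        ∑ i ∈ A, (nbc G X f y i).card := by
      refine sum_le_sum (fun i hi => ?_)
      have h4 := nbc_nonempty G X J f α h.near.maps y hyX hyA i hi
      split_ifs with h5
      · have := h5.2
        omega
      · omega
    rw [sum_add_distrib, sum_const, smul_eq_mul, mul_one, ← card_filter] at h3
    have h4 : A.filter (fun i => i ∈ T ∧ (nbc G X f y i).card ≠ 1) =
        T.filter (fun i => ¬ (nbc G X f y i).card = 1) := by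
      ext i
      rw [mem_filter, mem_filter]
      constructor
      · rintro ⟨_, h5, h6⟩; exact ⟨h5, h6⟩
      · rintro ⟨h5, h6⟩; exact ⟨hTA h5, h5, h6⟩
    have h5 := card_filter_add_card_filter_not (s := T) (fun W => (nbc G X f y W).card = 1)
    rw [h4] at h3
    rw [← hBdef] at h1
    omega
  -- a movable vertex in each class of T
  have hmov : ∀ W ∈ T, ∃ v ∈ X, f v = W ∧ ∃ Z ∈ A, Z ≠ W ∧ Free G X f v Z := by
    intro W hW
    obtain ⟨k, hk⟩ := mem_acc.mp (hTA hW)
    cases k with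
    | zero => exact absurd (hk.1 ▸ hW) hαT
    | succ k =>
      obtain ⟨_, Z, ⟨hWZ, v, hv, hvW, hfree⟩, hZ⟩ := hk
      exact ⟨v, hv, hvW, Z, mem_acc.mpr ⟨k, hZ⟩, hWZ.symm, hfree⟩
  have hclc : ∀ W ∈ T, (cl X f W).card ≤ c := by
    intro W hW
    have := h.cls_le W (hTA hW)
    omega
  -- q ≤ |T|
  have hqT : q ≤ T.card := by
    obtain ⟨W, hW⟩ := hTne
    set S := (cl X f W).filter (fun z => ∃ y ∈ B, nbc G X f y W = {z}) with hSdef
    set D := (cl X f W).filter (fun z => ¬ ∃ y ∈ B, nbc G X f y W = {z}) with hDdef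
    have hSD : S.card + D.card = (cl X f W).card := card_filter_add_card_filter_not _
    have hDne : 1 ≤ D.card := by
      rw [Nat.one_le_iff_ne_zero, Ne, card_eq_zero]
      intro hemp
      obtain ⟨v, hv, hvW, Z, hZ, hZW, hfree⟩ := hmov W hW
      have hvS : ¬ ∃ y ∈ B, nbc G X f y W = {v} := fun hex =>
        hsolo W hW v hv hvW hex Z hZ hZW hfree
      have : v ∈ D := mem_filter.mpr ⟨mem_cl.mpr ⟨hv, hvW⟩, hvS⟩
      rw [hemp] at this
      exact notMem_empty _ this
    have hy2 : ∀ y ∈ B, 2 ≤ 2 * (nbs G S y).card + (nbs G D y).card := by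
      intro y hy
      by_cases hS : (nbs G S y).card = 0
      · have h1 : nbc G X f y W = nbs G D y := by
          rw [nbc_eq_nbs_cl]
          ext w
          rw [mem_nbs, mem_nbs]
          constructor
          · rintro ⟨h1, h2⟩
            refine ⟨?_, h2⟩
            by_contra h3
            have h4 : w ∈ S := by
              rw [hSdef, mem_filter]
              refine ⟨h1, ?_⟩
              by_contra h5
              exact h3 (mem_filter.mpr ⟨h1, h5⟩)
            have h5 : w ∈ nbs G S y := mem_nbs.mpr ⟨h4, h2⟩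
            rw [card_eq_zero] at hS
            rw [hS] at h5
            exact notMem_empty _ h5
          · rintro ⟨h1, h2⟩
            exact ⟨(mem_filter.mp h1).1, h2⟩
        have h2 := nbc_nonempty G X J f α h.near.maps y (mem_bset.mp hy).1 (mem_bset.mp hy).2 W
          (hTA hW)
        by_cases h3 : (nbc G X f y W).card = 1
        · exfalso
          obtain ⟨z, hz⟩ := card_eq_one.mp h3
          have hzm : z ∈ nbs G D y := by rw [← h1, hz]; exact mem_singleton_self z
          have hzD := (mem_nbs.mp hzm).1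
          exact (mem_filter.mp hzD).2 ⟨y, hy, hz⟩
        · rw [← h1]
          omega
      · omega
    have h1 : ∑ y ∈ B, 2 ≤ ∑ y ∈ B, (2 * (nbs G S y).card + (nbs G D y).card) := sum_le_sum hy2
    rw [sum_const, smul_eq_mul, sum_add_distrib, ← mul_sum, dcount G B S,
      dcount G B D] at h1
    have h2 : ∑ x ∈ S, (nbs G B x).card ≤ ∑ x ∈ S, q := by
      refine sum_le_sum (fun x hx => ?_)
      rw [hSdef, mem_filter, mem_cl] at hx
      exact d2 x hx.1.1 W (hTA hW) (hsolo W hW x hx.1.1 hx.1.2 hx.2)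
    have h3 : ∑ x ∈ D, (nbs G B x).card ≤ ∑ x ∈ D, (q + T.card) := by
      refine sum_le_sum (fun x hx => ?_)
      rw [hDdef, mem_filter, mem_cl] at hx
      exact d1 x hx.1.1 (hx.1.2 ▸ hW)
    rw [sum_const, smul_eq_mul] at h2 h3
    have h4 := hclc W hW
    have h5 : q * (S.card + D.card) ≤ B.card := (Nat.mul_le_mul_left q (by omega)).trans hB
    have h6 : D.card * (2 * q) ≤ D.card * (q + T.card) := by nlinarith
    have h7 := Nat.le_of_mul_le_mul_left h6 (by omega)
    omega
  obtain ⟨I, hIB, hind, hmax⟩ := exists_max_indep G B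
  have d6 := cover_le G B I hmax
  have hIc : c ≤ I.card := by
    have h1 : ∑ x ∈ I, ((nbs G B x).card + 1) ≤ ∑ x ∈ I, q :=
      sum_le_sum (fun x hx => hdB x (hIB hx))
    rw [sum_const, smul_eq_mul] at h1
    have h2 : q * c ≤ q * I.card := by
      rw [mul_comm q I.card]
      omega
    have h3 : 1 ≤ q := by
      have := hdB y0 hy0
      omega
    exact Nat.le_of_mul_le_mul_left h2 h3
  by_contra hcon
  push Not at hcon
  have d9 : ∀ W ∈ T, (I.filter (fun y => (nbc G X f y W).card = 1)).card + 1 ≤ c := by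
    intro W hW
    obtain ⟨v, hv, hvW, Z, hZ, hZW, hfree⟩ := hmov W hW
    have : Nonempty V := ⟨v⟩
    have hex : ∀ y ∈ I.filter (fun y => (nbc G X f y W).card = 1),
        ∃ z, z ∈ (cl X f W).erase v ∧ nbc G X f y W = {z} := by
      intro y hy
      rw [mem_filter] at hy
      obtain ⟨z, hz⟩ := card_eq_one.mp hy.2
      have hzm : z ∈ nbc G X f y W := by rw [hz]; exact mem_singleton_self z
      rw [mem_nbc] at hzm
      refine ⟨z, mem_erase.mpr ⟨?_, mem_cl.mpr ⟨hzm.1, hzm.2.2⟩⟩, hz⟩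
      rintro rfl
      exact hsolo W hW z hv hvW ⟨y, hIB hy.1, hz⟩ Z hZ hZW hfree
    choose! φ hφ using hex
    have hinj : Set.InjOn φ (I.filter (fun y => (nbc G X f y W).card = 1) : Set V) := by
      intro y1 hy1 y2 hy2 h12
      by_contra hne
      rw [mem_coe] at hy1 hy2
      have h1 := hφ y1 hy1
      have h2 := hφ y2 hy2
      rw [mem_filter] at hy1 hy2
      rw [← h12] at h2
      have hz := mem_cl.mp (mem_erase.mp h1.1).2
      exact hcon W hW (φ y1) hz.1 hz.2 y1 (hIB hy1.1) y2 (hIB hy2.1) hne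
        (hind y1 hy1.1 y2 hy2.1) h1.2 h2.2
    have h1 := card_le_card_of_injOn φ (fun y hy => (hφ y hy).1) hinj
    rw [card_erase_of_mem (mem_cl.mpr ⟨hv, hvW⟩)] at h1
    have h2 := hclc W hW
    have h3 : 1 ≤ (cl X f W).card := card_pos.mpr ⟨v, mem_cl.mpr ⟨hv, hvW⟩⟩
    omega
  have d8 : ∑ y ∈ I, (T.filter (fun W => (nbc G X f y W).card = 1)).card =
      ∑ W ∈ T, (I.filter (fun y => (nbc G X f y W).card = 1)).card := by
    simp only [card_filter]
    exact sum_comm
  have h1 : ∑ W ∈ T, ((I.filter (fun y => (nbc G X f y W).card = 1)).card + 1) ≤ ∑ W ∈ T, c :=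
    sum_le_sum d9
  rw [sum_add_distrib, sum_const, sum_const, smul_eq_mul, smul_eq_mul, mul_one, ← d8] at h1
  have h2 : ∑ y ∈ I, (T.card + ((nbs G B y).card + 1)) ≤
      ∑ y ∈ I, (q + (T.filter (fun W => (nbc G X f y W).card = 1)).card) :=
    sum_le_sum (fun y hy => d3 y (hIB hy))
  rw [sum_add_distrib (f := fun _ => T.card), sum_add_distrib (f := fun _ => q), sum_const,
    sum_const, smul_eq_mul, smul_eq_mul] at h2
  obtain ⟨e, he⟩ := Nat.exists_eq_add_of_le hqT
  have h3 : e * c ≤ e * I.card := Nat.mul_le_mul_left e hIc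
  have h4 : 1 ≤ T.card := card_pos.mpr hTne
  rw [he] at h1 h2 h4
  nlinarith

end

end Pool.Agent.Helper64.BEC
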