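import Pool.Agent.Helper64.BEC.Find

/-!
The recolouring steps and the main theorem on colourings with prescribed class sizes.
-/

set_option autoImplicit false

open Classical Finset

namespace Pool.Agent.Helper64.BEC

noncomputable section

variable {V ι : Type*} {G : SimpleGraph V} {X : Finset V} {J : Finset ι} {s : ι → ℕ} {f : V → ι}
  {α β : ι} {r c : ℕ}

/-- The combined colouring. -/
def comb (z y : V) (Z W : ι) (B : Finset V) (g f : V → ι) : V → ι :=
  fun v => if v = z then Z else if v = y then W else if v ∈ B then g v else f v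

theorem comb_z (z y : V) (Z W : ι) (B : Finset V) (g f : V → ι) : comb z y Z W B g f z = Z := by
  simp [comb]

theorem comb_y (z y : V) (Z W : ι) (B : Finset V) (g f : V → ι) (h : y ≠ z) :
    comb z y Z W B g f y = W := by
  simp [comb, h]

theorem comb_B (z y : V) (Z W : ι) (B : Finset V) (g f : V → ι) (v : V) (h1 : v ≠ z) (h2 : v ≠ y)
    (h3 : v ∈ B) : comb z y Z W B g f v = g v := by
  simp [comb, h1, h2, h3]

theorem comb_A (z y : V) (Z W : ι) (B : Finset V) (g f : V → ι) (v : V) (h1 : v ≠ z) (h2 : v ≠ y)
    (h3 : v ∉ B) : comb z y Z W B g f v = f v := by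
  simp [comb, h1, h2, h3]

theorem Ctx.recolorB (h : Ctx G X J s f α β r c)
    (IH : ∀ (X' : Finset V) (J' : Finset ι) (r' : ℕ), X'.card < X.card →
      (∀ v ∈ X', (nbs G X' v).card ≤ r') → ∑ i ∈ J', s i = X'.card → (∀ i ∈ J', s i ≤ c) →
      (r' + 1) * c ≤ X'.card + 1 → ∃ g, Exact G X' J' s g)
    (y : V) (hy : y ∈ bset X (acc G X J f α) f) :
    ∃ g, Exact G ((bset X (acc G X J f α) f).erase y) (J \ acc G X J f α) s g := by
  have hcard := card_erase_of_mem hy
  have hpos : 1 ≤ (bset X (acc G X J f α) f).card := card_pos.mpr ⟨y, hy⟩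
  have har : (acc G X J f α).card ≤ r := by
    have := h.degB y hy
    omega
  refine IH _ _ (r - (acc G X J f α).card) ?_ ?_ ?_ ?_ ?_
  · have h1 : (bset X (acc G X J f α) f).card ≤ X.card := card_le_card (filter_subset _ _)
    omega
  · intro v hv
    rw [mem_erase] at hv
    have h1 := h.degB v hv.2
    have h2 : (nbs G ((bset X (acc G X J f α) f).erase y) v).card ≤
        (nbs G (bset X (acc G X J f α) f) v).card := by
      apply card_le_card
      intro w hw
      rw [mem_nbs, mem_erase] at hw
      exact mem_nbs.mpr ⟨hw.1.2, hw.2⟩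
    omega
  · have h1 := h.sumB
    omega
  · intro i hi
    exact h.hc i (mem_sdiff.mp hi).1
  · have h1 := h.star
    have h2 : (r + 1) * c = (acc G X J f α).card * c + (r - (acc G X J f α).card + 1) * c := by
      rw [← add_mul]
      congr 1
      omega
    omega

theorem Ctx.caseI (h : Ctx G X J s f α β r c) (W : ι) (hW : W ∈ acc G X J f α) (hWα : W ≠ α)
    (z : V) (hz : z ∈ X) (hzW : f z = W) (y : V) (hy : y ∈ bset X (acc G X J f α) f)
    (hyz : nbc G X f y W = {z}) (Z : ι) (hZ : Z ∈ acc G X J f α) (hZW : Z ≠ W)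
    (hfree : Free G X f z Z)
    (hterm : ∃ k, Rk (Mov G X f) (fun j => j ∈ J ∧ j ≠ W) α k Z)
    (g : V → ι) (hg : Exact G ((bset X (acc G X J f α) f).erase y) (J \ acc G X J f α) s g) :
    ∃ g', Exact G X J s g' := by
  obtain ⟨f1, hf1, hcard1, hch⟩ := shift G X f h.near.proper (fun j => j ∈ J ∧ j ≠ W) α Z hterm
  set A := acc G X J f α with hAdef
  set B := bset X A f with hBdef
  have hzB : z ∉ B := fun h1 => (mem_bset.mp h1).2 (hzW ▸ hW)
  have hyX := (mem_bset.mp hy).1
  have hyne : y ≠ z := fun h1 => hzB (h1 ▸ hy)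
  have hrk : ∀ i, (∃ k, Rk (Mov G X f) (fun j => j ∈ J ∧ j ≠ W) α k i) → i ∈ A ∧ i ≠ W := by
    rintro i ⟨k, hk⟩
    exact ⟨mem_acc.mpr ⟨k, Rk_mono (fun j hj => hj.1) hk⟩, (Rk_P hk).2⟩
  have hA1 : ∀ v ∈ X, v ∉ B → f1 v ∈ A := by
    intro v hv hvB
    by_cases h1 : f1 v = f v
    · rw [h1]
      by_contra h2
      exact hvB (mem_bset.mpr ⟨hv, h2⟩)
    · exact (hrk _ (hch v h1).2.1).1
  have hB1 : ∀ v ∈ B, f1 v ∉ A := by
    intro v hv
    by_cases h1 : f1 v = f v
    · rw [h1]; exact (mem_bset.mp hv).2
    · exact absurd (hrk _ (hch v h1).1).1 (mem_bset.mp hv).2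
  have hW1 : ∀ v, f1 v = W → f v = W := by
    intro v hv
    by_cases h1 : f1 v = f v
    · rw [← h1]; exact hv
    · exact absurd hv (hrk _ (hch v h1).2.1).2
  have hzf1 : f1 z = W := by
    by_cases h1 : f1 z = f z
    · rw [h1]; exact hzW
    · exact absurd hzW (hrk _ (hch z h1).1).2
  have hZ1 : ∀ v, f1 v = Z → f v = Z := by
    intro v hv
    by_cases h1 : f1 v = f v
    · rw [← h1]; exact hv
    · exact absurd hv (hch v h1).2.2
  have hgA : ∀ v ∈ B, v ≠ y → g v ∉ A ∧ g v ∈ J := by
    intro v hv hvy
    have := hg.maps v (mem_erase.mpr ⟨hvy, hv⟩)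
    rw [mem_sdiff] at this
    exact ⟨this.2, this.1⟩
  set F := comb z y Z W B g f1 with hFdef
  have Fz : F z = Z := comb_z _ _ _ _ _ _ _
  have Fy : F y = W := comb_y _ _ _ _ _ _ _ hyne
  have FB : ∀ v ∈ B, v ≠ y → F v = g v := fun v hv hvy =>
    comb_B _ _ _ _ _ _ _ v (fun h1 => hzB (h1 ▸ hv)) hvy hv
  have FA : ∀ v, v ∉ B → v ≠ z → F v = f1 v := fun v hv hvz =>
    comb_A _ _ _ _ _ _ _ v hvz (fun h1 => hv (h1 ▸ hy)) hv
  have kz : ∀ w ∈ X, G.Adj z w → F w ≠ Z := by
    intro w hw hadj
    have hwz : w ≠ z := hadj.ne'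
    by_cases hwy : w = y
    · rw [hwy, Fy]; exact hZW.symm
    · by_cases hwB : w ∈ B
      · rw [FB w hwB hwy]
        exact fun h1 => (hgA w hwB hwy).1 (h1 ▸ hZ)
      · rw [FA w hwB hwz]
        exact fun h1 => hfree w hw (hZ1 w h1) hadj
  have ky : ∀ w ∈ X, G.Adj y w → F w ≠ W := by
    intro w hw hadj
    have hwy : w ≠ y := hadj.ne'
    by_cases hwz : w = z
    · rw [hwz, Fz]; exact hZW
    · by_cases hwB : w ∈ B
      · rw [FB w hwB hwy]
        exact fun h1 => (hgA w hwB hwy).1 (h1 ▸ hW)
      · rw [FA w hwB hwz]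
        intro h1
        have h2 : w ∈ nbc G X f y W := mem_nbc.mpr ⟨hw, hadj, hW1 w h1⟩
        rw [hyz, mem_singleton] at h2
        exact hwz h2
  refine ⟨F, ?_, ?_, ?_⟩
  · intro v hv
    by_cases hvz : v = z
    · rw [hvz, Fz]; exact acc_sub hZ
    · by_cases hvy : v = y
      · rw [hvy, Fy]; exact acc_sub hW
      · by_cases hvB : v ∈ B
        · rw [FB v hvB hvy]; exact (hgA v hvB hvy).2
        · rw [FA v hvB hvz]; exact acc_sub (hA1 v hv hvB)
  · intro v hv w hw hadj
    by_cases hvz : v = z
    · subst hvz; rw [Fz]; exact (kz w hw hadj).symm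
    by_cases hwz : w = z
    · subst hwz; rw [Fz]; exact kz v hv hadj.symm
    by_cases hvy : v = y
    · subst hvy; rw [Fy]; exact (ky w hw hadj).symm
    by_cases hwy : w = y
    · subst hwy; rw [Fy]; exact ky v hv hadj.symm
    by_cases hvB : v ∈ B <;> by_cases hwB : w ∈ B
    · rw [FB v hvB hvy, FB w hwB hwy]
      exact hg.proper v (mem_erase.mpr ⟨hvy, hvB⟩) w (mem_erase.mpr ⟨hwy, hwB⟩) hadj
    · rw [FB v hvB hvy, FA w hwB hwz]
      exact fun h1 => (hgA v hvB hvy).1 (h1 ▸ hA1 w hw hwB)
    · rw [FA v hvB hvz, FB w hwB hwy]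
      exact fun h1 => (hgA w hwB hwy).1 (h1 ▸ hA1 v hv hvB)
    · rw [FA v hvB hvz, FA w hwB hwz]
      exact hf1 v hv w hw hadj
  · intro t ht
    by_cases htA : t ∈ A
    · have htβ : t ≠ β := fun h1 => h.hβ (h1 ▸ htA)
      have hcn := h.near.card t ht
      have hc1 := hcard1 t
      rw [if_neg htβ] at hcn
      by_cases htZ : t = Z
      · subst htZ
        have h1 : cl X F t = insert z (cl X f1 t) := by
          ext v
          rw [mem_insert, mem_cl, mem_cl]
          by_cases hvz : v = z
          · subst hvz; simp [Fz, hz]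
          · by_cases hvy : v = y
            · subst hvy
              rw [Fy]
              constructor
              · intro h2; exact absurd h2.2.symm hZW
              · rintro (h2 | h2)
                · exact absurd h2 hvz
                · exact absurd (h2.2 ▸ htA) (hB1 v hy)
            · by_cases hvB : v ∈ B
              · rw [FB v hvB hvy]
                constructor
                · intro h2; exact absurd (h2.2 ▸ htA) (hgA v hvB hvy).1
                · rintro (h2 | h2)
                  · exact absurd h2 hvz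
                  · exact absurd (h2.2 ▸ htA) (hB1 v hvB)
              · rw [FA v hvB hvz]; simp [hvz]
        have h2 : z ∉ cl X f1 t := fun h2 => hZW ((mem_cl.mp h2).2.symm.trans hzf1)
        rw [h1, card_insert_of_notMem h2]
        rw [if_pos rfl] at hc1
        omega
      · by_cases htW : t = W
        · subst htW
          have h1 : cl X F t = insert y ((cl X f1 t).erase z) := by
            ext v
            rw [mem_insert, mem_erase, mem_cl, mem_cl]
            by_cases hvz : v = z
            · subst hvz
              rw [Fz]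
              constructor
              · intro h2; exact absurd h2.2 hZW
              · rintro (h2 | h2)
                · exact absurd h2.symm hyne
                · exact absurd rfl h2.1
            · by_cases hvy : v = y
              · subst hvy; simp [Fy, hyX]
              · by_cases hvB : v ∈ B
                · rw [FB v hvB hvy]
                  constructor
                  · intro h2; exact absurd (h2.2 ▸ htA) (hgA v hvB hvy).1
                  · rintro (h2 | h2)
                    · exact absurd h2 hvy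
                    · exact absurd (h2.2.2 ▸ htA) (hB1 v hvB)
                · rw [FA v hvB hvz]; simp [hvz, hvy]
          have h2 : y ∉ (cl X f1 t).erase z := by
            intro h2
            rw [mem_erase, mem_cl] at h2
            exact hB1 y hy (h2.2.2 ▸ htA)
          have h3 : z ∈ cl X f1 t := mem_cl.mpr ⟨hz, hzf1⟩
          have h4 : 1 ≤ (cl X f1 t).card := card_pos.mpr ⟨z, h3⟩
          rw [h1, card_insert_of_notMem h2, card_erase_of_mem h3]
          rw [if_neg htZ, if_neg hWα] at hc1
          rw [if_neg hWα] at hcn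
          omega
        · have h1 : cl X F t = cl X f1 t := by
            ext v
            rw [mem_cl, mem_cl]
            by_cases hvz : v = z
            · subst hvz
              rw [Fz, hzf1]
              constructor
              · intro h2; exact absurd h2.2.symm htZ
              · intro h2; exact absurd h2.2.symm htW
            · by_cases hvy : v = y
              · subst hvy
                rw [Fy]
                constructor
                · intro h2; exact absurd h2.2.symm htW
                · intro h2; exact absurd (h2.2 ▸ htA) (hB1 v hy)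
              · by_cases hvB : v ∈ B
                · rw [FB v hvB hvy]
                  constructor
                  · intro h2; exact absurd (h2.2 ▸ htA) (hgA v hvB hvy).1
                  · intro h2; exact absurd (h2.2 ▸ htA) (hB1 v hvB)
                · rw [FA v hvB hvz]
          rw [h1]
          rw [if_neg htZ] at hc1
          omega
    · have h1 : cl X F t = cl (B.erase y) g t := by
        ext v
        rw [mem_cl, mem_cl, mem_erase]
        by_cases hvz : v = z
        · subst hvz
          rw [Fz]
          constructor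
          · intro h2; exact absurd (h2.2 ▸ hZ) htA
          · intro h2; exact absurd h2.1.2 hzB
        · by_cases hvy : v = y
          · subst hvy
            rw [Fy]
            constructor
            · intro h2; exact absurd (h2.2 ▸ hW) htA
            · intro h2; exact absurd rfl h2.1.1
          · by_cases hvB : v ∈ B
            · rw [FB v hvB hvy]
              simp [hvy, hvB, (mem_bset.mp hvB).1]
            · rw [FA v hvB hvz]
              constructor
              · intro h2; exact absurd (h2.2 ▸ hA1 v h2.1 hvB) htA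
              · intro h2; exact absurd h2.1.2 hvB
      rw [h1]
      exact hg.card t (mem_sdiff.mpr ⟨ht, htA⟩)

theorem Ctx.caseII (h : Ctx G X J s f α β r c) (W : ι) (hW : W ∈ acc G X J f α) (hWα : W ≠ α)
    (z : V) (hz : z ∈ X) (hzW : f z = W) (y y₂ : V) (hy : y ∈ bset X (acc G X J f α) f)
    (hy₂ : y₂ ∈ bset X (acc G X J f α) f) (hne : y ≠ y₂) (hnadj : ¬ G.Adj y y₂)
    (hyz : nbc G X f y W = {z}) (hyz₂ : nbc G X f y₂ W = {z})
    (hnf : ∀ Z ∈ acc G X J f α, Z ≠ W → ¬ Free G X f z Z)
    (hterm : ∀ i ∈ acc G X J f α, i ≠ W → ∃ k, Rk (Mov G X f) (fun j => j ∈ J ∧ j ≠ W) α k i)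
    (g : V → ι) (hg : Exact G ((bset X (acc G X J f α) f).erase y) (J \ acc G X J f α) s g) :
    ∃ f' β', Near G X J s f' α β' ∧ (acc G X J f α).card < (acc G X J f' α).card := by
  set A := acc G X J f α with hAdef
  set B := bset X A f with hBdef
  have hzB : z ∉ B := fun h1 => (mem_bset.mp h1).2 (hzW ▸ hW)
  have hyX := (mem_bset.mp hy).1
  have hyne : y ≠ z := fun h1 => hzB (h1 ▸ hy)
  have hgA : ∀ v ∈ B, v ≠ y → g v ∉ A ∧ g v ∈ J := by
    intro v hv hvy
    have := hg.maps v (mem_erase.mpr ⟨hvy, hv⟩)
    rw [mem_sdiff] at this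
    exact ⟨this.2, this.1⟩
  -- a free colour for z
  have hdz : (nbs G B z).card + (A.card - 1) ≤ r := by
    have h1 := deg_split G X A f z
    have h2 := h.hdeg z hz
    have h3 : (A.erase W).card ≤ ∑ i ∈ A.erase W, (nbc G X f z i).card := by
      apply card_le_sum
      intro i hi
      rw [mem_erase] at hi
      exact not_free_iff.mp (hnf i hi.2 hi.1)
    have h4 : ∑ i ∈ A.erase W, (nbc G X f z i).card ≤ ∑ i ∈ A, (nbc G X f z i).card :=
      sum_le_sum_of_subset (erase_subset _ _)
    rw [card_erase_of_mem hW] at h3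
    rw [← hBdef] at h1
    omega
  have hzy : G.Adj z y := by
    have h1 : z ∈ nbc G X f y W := by rw [hyz]; exact mem_singleton_self z
    exact (mem_nbc.mp h1).2.1.symm
  obtain ⟨Y, hYJ, hY⟩ : ∃ Y ∈ J \ A, ∀ w ∈ B.erase y, G.Adj z w → g w ≠ Y := by
    by_contra hcon
    push Not at hcon
    have h1 : J \ A ⊆ ((nbs G B z).erase y).image g := by
      intro Y hY
      obtain ⟨w, hw, hadj, hgw⟩ := hcon Y hY
      rw [mem_image]
      rw [mem_erase] at hw
      exact ⟨w, mem_erase.mpr ⟨hw.1, mem_nbs.mpr ⟨hw.2, hadj⟩⟩, hgw⟩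
    have h2 := (card_le_card h1).trans card_image_le
    have h3 : y ∈ nbs G B z := mem_nbs.mpr ⟨hy, hzy⟩
    rw [card_erase_of_mem h3] at h2
    have h4 : (J \ A).card + A.card = J.card := card_sdiff_add_card_eq_card acc_sub
    have h5 := h.card_J
    have h6 : 1 ≤ (nbs G B z).card := card_pos.mpr ⟨y, h3⟩
    have h7 : 1 ≤ A.card := card_pos.mpr ⟨W, hW⟩
    omega
  rw [mem_sdiff] at hYJ
  set F := comb z y Y W B g f with hFdef
  have Fz : F z = Y := comb_z _ _ _ _ _ _ _
  have Fy : F y = W := comb_y _ _ _ _ _ _ _ hyne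
  have FB : ∀ v ∈ B, v ≠ y → F v = g v := fun v hv hvy =>
    comb_B _ _ _ _ _ _ _ v (fun h1 => hzB (h1 ▸ hv)) hvy hv
  have FA : ∀ v, v ∉ B → v ≠ z → F v = f v := fun v hv hvz =>
    comb_A _ _ _ _ _ _ _ v hvz (fun h1 => hv (h1 ▸ hy)) hv
  have hfA : ∀ v ∈ X, v ∉ B → f v ∈ A := by
    intro v hv hvB
    by_contra h2
    exact hvB (mem_bset.mpr ⟨hv, h2⟩)
  have hfB : ∀ v ∈ B, f v ∉ A := fun v hv => (mem_bset.mp hv).2
  have hYW : Y ≠ W := fun h1 => hYJ.2 (h1 ▸ hW)
  have kz : ∀ w ∈ X, G.Adj z w → F w ≠ Y := by
    intro w hw hadj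
    have hwz : w ≠ z := hadj.ne'
    by_cases hwy : w = y
    · rw [hwy, Fy]; exact hYW.symm
    · by_cases hwB : w ∈ B
      · rw [FB w hwB hwy]
        exact hY w (mem_erase.mpr ⟨hwy, hwB⟩) hadj
      · rw [FA w hwB hwz]
        exact fun h1 => hYJ.2 (h1 ▸ hfA w hw hwB)
  have ky : ∀ w ∈ X, G.Adj y w → F w ≠ W := by
    intro w hw hadj
    have hwy : w ≠ y := hadj.ne'
    by_cases hwz : w = z
    · rw [hwz, Fz]; exact hYW
    · by_cases hwB : w ∈ B
      · rw [FB w hwB hwy]
        exact fun h1 => (hgA w hwB hwy).1 (h1 ▸ hW)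
      · rw [FA w hwB hwz]
        intro h1
        have h2 : w ∈ nbc G X f y W := mem_nbc.mpr ⟨hw, hadj, h1⟩
        rw [hyz, mem_singleton] at h2
        exact hwz h2
  have hYα : Y ≠ α := fun h1 => hYJ.2 (h1 ▸ h.hα)
  refine ⟨F, Y, ⟨?_, ?_, h.near.hα, hYJ.1, hYα.symm, ?_⟩, ?_⟩
  · intro v hv
    by_cases hvz : v = z
    · rw [hvz, Fz]; exact hYJ.1
    · by_cases hvy : v = y
      · rw [hvy, Fy]; exact acc_sub hW
      · by_cases hvB : v ∈ B
        · rw [FB v hvB hvy]; exact (hgA v hvB hvy).2
        · rw [FA v hvB hvz]; exact acc_sub (hfA v hv hvB)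
  · intro v hv w hw hadj
    by_cases hvz : v = z
    · subst hvz; rw [Fz]; exact (kz w hw hadj).symm
    by_cases hwz : w = z
    · subst hwz; rw [Fz]; exact kz v hv hadj.symm
    by_cases hvy : v = y
    · subst hvy; rw [Fy]; exact (ky w hw hadj).symm
    by_cases hwy : w = y
    · subst hwy; rw [Fy]; exact ky v hv hadj.symm
    by_cases hvB : v ∈ B <;> by_cases hwB : w ∈ B
    · rw [FB v hvB hvy, FB w hwB hwy]
      exact hg.proper v (mem_erase.mpr ⟨hvy, hvB⟩) w (mem_erase.mpr ⟨hwy, hwB⟩) hadj
    · rw [FB v hvB hvy, FA w hwB hwz]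
      exact fun h1 => (hgA v hvB hvy).1 (h1 ▸ hfA w hw hwB)
    · rw [FA v hvB hvz, FB w hwB hwy]
      exact fun h1 => (hgA w hwB hwy).1 (h1 ▸ hfA v hv hvB)
    · rw [FA v hvB hvz, FA w hwB hwz]
      exact h.near.proper v hv w hw hadj
  · intro t ht
    by_cases htA : t ∈ A
    · have htβ : t ≠ β := fun h1 => h.hβ (h1 ▸ htA)
      have htY : t ≠ Y := fun h1 => hYJ.2 (h1 ▸ htA)
      have hcn := h.near.card t ht
      rw [if_neg htβ] at hcn
      rw [if_neg htY]
      by_cases htW : t = W
      · subst htW
        have h1 : cl X F t = insert y ((cl X f t).erase z) := by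
          ext v
          rw [mem_insert, mem_erase, mem_cl, mem_cl]
          by_cases hvz : v = z
          · subst hvz
            rw [Fz]
            constructor
            · intro h2; exact absurd h2.2 hYW
            · rintro (h2 | h2)
              · exact absurd h2.symm hyne
              · exact absurd rfl h2.1
          · by_cases hvy : v = y
            · subst hvy; simp [Fy, hyX]
            · by_cases hvB : v ∈ B
              · rw [FB v hvB hvy]
                constructor
                · intro h2; exact absurd (h2.2 ▸ htA) (hgA v hvB hvy).1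
                · rintro (h2 | h2)
                  · exact absurd h2 hvy
                  · exact absurd (h2.2.2 ▸ htA) (hfB v hvB)
              · rw [FA v hvB hvz]; simp [hvz, hvy]
        have h2 : y ∉ (cl X f t).erase z := by
          intro h2
          rw [mem_erase, mem_cl] at h2
          exact hfB y hy (h2.2.2 ▸ htA)
        have h3 : z ∈ cl X f t := mem_cl.mpr ⟨hz, hzW⟩
        have h4 : 1 ≤ (cl X f t).card := card_pos.mpr ⟨z, h3⟩
        rw [h1, card_insert_of_notMem h2, card_erase_of_mem h3]
        omega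
      · have h1 : cl X F t = cl X f t := by
          ext v
          rw [mem_cl, mem_cl]
          by_cases hvz : v = z
          · subst hvz
            rw [Fz, hzW]
            constructor
            · intro h2; exact absurd h2.2.symm htY
            · intro h2; exact absurd h2.2.symm htW
          · by_cases hvy : v = y
            · subst hvy
              rw [Fy]
              constructor
              · intro h2; exact absurd h2.2.symm htW
              · intro h2; exact absurd (h2.2 ▸ htA) (hfB v hy)
            · by_cases hvB : v ∈ B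
              · rw [FB v hvB hvy]
                constructor
                · intro h2; exact absurd (h2.2 ▸ htA) (hgA v hvB hvy).1
                · intro h2; exact absurd (h2.2 ▸ htA) (hfB v hvB)
              · rw [FA v hvB hvz]
        rw [h1]
        exact hcn
    · have htα : t ≠ α := fun h1 => htA (h1 ▸ h.hα)
      have hgc := hg.card t (mem_sdiff.mpr ⟨ht, htA⟩)
      rw [if_neg htα]
      by_cases htY : t = Y
      · subst htY
        have h1 : cl X F t = insert z (cl (B.erase y) g t) := by
          ext v
          rw [mem_insert, mem_cl, mem_cl, mem_erase]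
          by_cases hvz : v = z
          · subst hvz; simp [Fz, hz]
          · by_cases hvy : v = y
            · subst hvy
              rw [Fy]
              constructor
              · intro h2; exact absurd h2.2.symm hYW
              · rintro (h2 | h2)
                · exact absurd h2 hvz
                · exact absurd rfl h2.1.1
            · by_cases hvB : v ∈ B
              · rw [FB v hvB hvy]
                simp [hvy, hvB, hvz, (mem_bset.mp hvB).1]
              · rw [FA v hvB hvz]
                constructor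
                · intro h2; exact absurd (h2.2 ▸ hfA v h2.1 hvB) htA
                · rintro (h2 | h2)
                  · exact absurd h2 hvz
                  · exact absurd h2.1.2 hvB
        have h2 : z ∉ cl (B.erase y) g t := fun h2 => hzB (mem_erase.mp (mem_cl.mp h2).1).2
        rw [h1, card_insert_of_notMem h2, if_pos rfl]
        omega
      · have h1 : cl X F t = cl (B.erase y) g t := by
          ext v
          rw [mem_cl, mem_cl, mem_erase]
          by_cases hvz : v = z
          · subst hvz
            rw [Fz]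
            constructor
            · intro h2; exact absurd h2.2.symm htY
            · intro h2; exact absurd h2.1.2 hzB
          · by_cases hvy : v = y
            · subst hvy
              rw [Fy]
              constructor
              · intro h2; exact absurd (h2.2 ▸ hW) htA
              · intro h2; exact absurd rfl h2.1.1
            · by_cases hvB : v ∈ B
              · rw [FB v hvB hvy]
                simp [hvy, hvB, (mem_bset.mp hvB).1]
              · rw [FA v hvB hvz]
                constructor
                · intro h2; exact absurd (h2.2 ▸ hfA v h2.1 hvB) htA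
                · intro h2; exact absurd h2.1.2 hvB
        rw [h1, if_neg htY]
        omega
  · -- accessible classes of F
    have hpath : ∀ k i, Rk (Mov G X f) (fun j => j ∈ J ∧ j ≠ W) α k i →
        Rk (Mov G X F) (· ∈ J) α k i := by
      intro k
      induction k with
      | zero => intro i hi; exact ⟨hi.1, hi.2.1⟩
      | succ k ih =>
        intro i hi
        have hiA : i ∈ A := mem_acc.mpr ⟨k + 1, Rk_mono (fun j hj => hj.1) hi⟩
        obtain ⟨hiP, j, ⟨hij, v, hv, hvi, hvf⟩, hj⟩ := hi
        have hjA : j ∈ A := mem_acc.mpr ⟨k, Rk_mono (fun j hj => hj.1) hj⟩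
        have hjW := (Rk_P hj).2
        refine ⟨hiP.1, j, ⟨hij, v, hv, ?_, ?_⟩, ih j hj⟩
        · have hvB : v ∉ B := fun h1 => hfB v h1 (hvi ▸ hiA)
          have hvz : v ≠ z := by
            rintro rfl
            exact hiP.2 (hvi.symm.trans hzW)
          rw [FA v hvB hvz]
          exact hvi
        · intro w hw hwj hadj
          by_cases hwz : w = z
          · rw [hwz, Fz] at hwj
            exact hYJ.2 (hwj ▸ hjA)
          · by_cases hwy : w = y
            · rw [hwy, Fy] at hwj
              exact hjW hwj.symm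
            · by_cases hwB : w ∈ B
              · rw [FB w hwB hwy] at hwj
                exact (hgA w hwB hwy).1 (hwj ▸ hjA)
              · rw [FA w hwB hwz] at hwj
                exact hvf w hw hwj hadj
    have hsub1 : ∀ i ∈ A, i ≠ W → i ∈ acc G X J F α := by
      intro i hi hiW
      obtain ⟨k, hk⟩ := hterm i hi hiW
      exact mem_acc.mpr ⟨k, hpath k i hk⟩
    have hWF : W ∈ acc G X J F α := by
      obtain ⟨k, hk⟩ := mem_acc.mp hW
      cases k with
      | zero => exact absurd hk.1 hWα
      | succ k =>
        obtain ⟨hWJ, Z, ⟨hWZ, v, hv, hvW, hvf⟩, hZ⟩ := hk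
        have hZA : Z ∈ A := mem_acc.mpr ⟨k, hZ⟩
        obtain ⟨k', hk'⟩ := mem_acc.mp (hsub1 Z hZA hWZ.symm)
        refine mem_acc.mpr ⟨k' + 1, hWJ, Z, ⟨hWZ, v, hv, ?_, ?_⟩, hk'⟩
        · have hvB : v ∉ B := fun h1 => hfB v h1 (hvW ▸ hW)
          have hvz : v ≠ z := by
            rintro rfl
            exact hnf Z hZA hWZ.symm hvf
          rw [FA v hvB hvz]
          exact hvW
        · intro w hw hwj hadj
          by_cases hwz : w = z
          · rw [hwz, Fz] at hwj
            exact hYJ.2 (hwj ▸ hZA)
          · by_cases hwy : w = y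
            · rw [hwy, Fy] at hwj
              exact hWZ hwj
            · by_cases hwB : w ∈ B
              · rw [FB w hwB hwy] at hwj
                exact (hgA w hwB hwy).1 (hwj ▸ hZA)
              · rw [FA w hwB hwz] at hwj
                exact hvf w hw hwj hadj
    have hy2B := hgA y₂ hy₂ hne.symm
    have hjF : g y₂ ∈ acc G X J F α := by
      obtain ⟨k', hk'⟩ := mem_acc.mp hWF
      refine mem_acc.mpr ⟨k' + 1, hy2B.2, W, ⟨?_, y₂, (mem_bset.mp hy₂).1, FB y₂ hy₂ hne.symm, ?_⟩, hk'⟩
      · exact fun h1 => hy2B.1 (h1 ▸ hW)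
      · intro w hw hwW hadj
        by_cases hwz : w = z
        · rw [hwz, Fz] at hwW
          exact hYW hwW
        · by_cases hwy : w = y
          · rw [hwy] at hadj
            exact hnadj hadj.symm
          · by_cases hwB : w ∈ B
            · rw [FB w hwB hwy] at hwW
              exact (hgA w hwB hwy).1 (hwW ▸ hW)
            · rw [FA w hwB hwz] at hwW
              have h2 : w ∈ nbc G X f y₂ W := mem_nbc.mpr ⟨hw, hadj, hwW⟩
              rw [hyz₂, mem_singleton] at h2
              exact hwz h2
    have hsub : insert (g y₂) A ⊆ acc G X J F α := by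
      intro i hi
      rw [mem_insert] at hi
      rcases hi with rfl | hi
      · exact hjF
      · by_cases hiW : i = W
        · rw [hiW]; exact hWF
        · exact hsub1 i hi hiW
    have := card_le_card hsub
    rw [card_insert_of_notMem hy2B.1] at this
    omega

theorem near_to_exact (G : SimpleGraph V) (X : Finset V) (J : Finset ι) (s : ι → ℕ) (r c : ℕ)
    (hdeg : ∀ v ∈ X, (nbs G X v).card ≤ r) (hsum : ∑ i ∈ J, s i = X.card)
    (hc : ∀ i ∈ J, s i ≤ c) (hbig : (r + 1) * c ≤ X.card + 1)
    (IH : ∀ (X' : Finset V) (J' : Finset ι) (r' : ℕ), X'.card < X.card →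
      (∀ v ∈ X', (nbs G X' v).card ≤ r') → ∑ i ∈ J', s i = X'.card → (∀ i ∈ J', s i ≤ c) →
      (r' + 1) * c ≤ X'.card + 1 → ∃ g, Exact G X' J' s g) (α : ι) :
    ∀ (m : ℕ) (f : V → ι) (β : ι), Near G X J s f α β → J.card ≤ (acc G X J f α).card + m →
      ∃ g, Exact G X J s g := by
  intro m
  induction m with
  | zero =>
    intro f β hnear hm
    have hJ : acc G X J f α = J := eq_of_subset_of_card_le acc_sub (by omega)
    obtain ⟨f', h1, h2, h3⟩ := shift G X f hnear.proper (· ∈ J) α β
      (mem_acc.mp (hJ.symm ▸ hnear.hβ))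
    refine ⟨f', ?_, h1, ?_⟩
    · intro v hv
      by_cases h4 : f' v = f v
      · rw [h4]; exact hnear.maps v hv
      · obtain ⟨k, hk⟩ := (h3 v h4).2.1
        exact Rk_P hk
    · intro i hi
      have h4 := h2 i
      have h5 := hnear.card i hi
      omega
  | succ m ih =>
    intro f β hnear hm
    by_cases hβ : β ∈ acc G X J f α
    · obtain ⟨f', h1, h2, h3⟩ := shift G X f hnear.proper (· ∈ J) α β (mem_acc.mp hβ)
      refine ⟨f', ?_, h1, ?_⟩
      · intro v hv
        by_cases h4 : f' v = f v
        · rw [h4]; exact hnear.maps v hv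
        · obtain ⟨k, hk⟩ := (h3 v h4).2.1
          exact Rk_P hk
      · intro i hi
        have h4 := h2 i
        have h5 := hnear.card i hi
        omega
    · have h : Ctx G X J s f α β r c := ⟨hnear, hdeg, hsum, hc, hbig, hβ⟩
      obtain ⟨U, T, hU, hTA, hTne, hUT, hαT, hterm, hsep⟩ := digraph J (Mov G X f) α hnear.hα
        (acc G X J f α) (fun i => mem_acc) h.exists_ne
      by_cases hcase : ∀ W ∈ T, ∀ z ∈ X, f z = W →
          (∃ y ∈ bset X (acc G X J f α) f, nbc G X f y W = {z}) →
          ∀ Z ∈ acc G X J f α, Z ≠ W → ¬ Free G X f z Z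
      · obtain ⟨W, hW, z, hz, hzW, y₁, hy₁, y₂, hy₂, hne, hnadj, hn1, hn2⟩ :=
          h.find U T hU hTA hTne hUT hαT hsep hcase
        obtain ⟨g, hg⟩ := h.recolorB IH y₁ hy₁
        obtain ⟨f', β', hnear', hlt⟩ := h.caseII W (hTA hW) (fun h1 => hαT (h1 ▸ hW)) z hz hzW
          y₁ y₂ hy₁ hy₂ hne hnadj hn1 hn2 (hcase W hW z hz hzW ⟨y₁, hy₁, hn1⟩) (hterm W hW) g hg
        exact ih f' β' hnear' (by omega)
      · push Not at hcase
        obtain ⟨W, hW, z, hz, hzW, ⟨y, hy, hyz⟩, Z, hZ, hZW, hfree⟩ := hcase
        obtain ⟨g, hg⟩ := h.recolorB IH y hy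
        exact h.caseI W (hTA hW) (fun h1 => hαT (h1 ▸ hW)) z hz hzW y hy hyz Z hZ hZW hfree
          (hterm W hW Z hZ hZW) g hg

end

end Pool.Agent.Helper64.BEC
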